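import Mathlib

set_option autoImplicit false

/-!
# Asymptotics of the measure of a union from first moments and pair bounds
-/

namespace Pool.Agent.Q26.FN

open Finset Filter Topology MeasureTheory

/-- the size of the `n`-th event -/
noncomputable def rr (n : ℕ) : ℝ := (n + 1) / 2 ^ n

/-- its tail sums -/
noncomputable def TT (n : ℕ) : ℝ := 2 * (n + 2) / 2 ^ n

lemma rr_pos (n : ℕ) : 0 < rr n := by unfold rr; positivity

lemma TT_pos (n : ℕ) : 0 < TT n := by unfold TT; positivity

lemma rr_eq (n : ℕ) : rr n = TT n - TT (n + 1) := by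
  unfold rr TT
  rw [pow_succ]
  push_cast
  field_simp
  ring

lemma TT_tendsto : Tendsto TT atTop (𝓝 0) := by
  have h1 : Tendsto (fun n : ℕ => (n : ℝ) * (1 / 2) ^ n) atTop (𝓝 0) :=
    tendsto_self_mul_const_pow_of_lt_one (by norm_num) (by norm_num)
  have h2 : Tendsto (fun n : ℕ => ((1 : ℝ) / 2) ^ n) atTop (𝓝 0) :=
    tendsto_pow_atTop_nhds_zero_of_lt_one (by norm_num) (by norm_num)
  have h3 := (h1.const_mul 2).add (h2.const_mul 4)
  rw [mul_zero, mul_zero, add_zero] at h3
  refine h3.congr fun n => ?_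
  unfold TT
  rw [one_div, inv_pow]
  ring

lemma sum_rr (N M : ℕ) : ∑ i ∈ range M, rr (N + i) = TT N - TT (N + M) := by
  induction M with
  | zero => simp
  | succ M ih => rw [sum_range_succ, ih, rr_eq, add_assoc]; ring

lemma hasSum_rr (N : ℕ) : HasSum (fun i => rr (N + i)) (TT N) := by
  rw [hasSum_iff_tendsto_nat_of_nonneg (fun i => (rr_pos _).le)]
  simp_rw [sum_rr]
  have h : Tendsto (fun M => TT (N + M)) atTop (𝓝 0) :=
    TT_tendsto.comp (tendsto_add_atTop_nat N |>.congr fun M => add_comm M N)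
  simpa using h.const_sub (TT N)

section

variable {E : ℕ → Set ℝ} {a b : ℝ}

/-- Bonferroni -/
lemma bonf (hE : ∀ n, MeasurableSet (E n)) (hab : ∀ n, E n ⊆ Set.Ioo a b) (N M : ℕ) :
    ∑ i ∈ range M, volume.real (E (N + i)) -
      ∑ i ∈ range M, ∑ j ∈ range i, volume.real (E (N + j) ∩ E (N + i)) ≤
      volume.real (⋃ i ∈ range M, E (N + i)) := by
  have hfin : ∀ S : Set ℝ, S ⊆ Set.Ioo a b → volume S ≠ ⊤ := fun S hS =>
    ((measure_mono hS).trans_lt (by simp [Real.volume_Ioo])).ne
  induction M with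
  | zero => simp
  | succ M ih =>
    rw [sum_range_succ, sum_range_succ]
    have hU : (⋃ i ∈ range (M + 1), E (N + i)) = (⋃ i ∈ range M, E (N + i)) ∪ E (N + M) := by
      rw [range_add_one, Finset.set_biUnion_insert, Set.union_comm]
    have hUs : (⋃ i ∈ range M, E (N + i)) ⊆ Set.Ioo a b := Set.iUnion₂_subset fun i _ => hab _
    have h1 := measureReal_union_add_inter (μ := volume) (s := ⋃ i ∈ range M, E (N + i)) (hE (N + M))
      (hfin _ hUs) (hfin _ (hab _))
    have h2 : volume.real ((⋃ i ∈ range M, E (N + i)) ∩ E (N + M)) ≤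
        ∑ j ∈ range M, volume.real (E (N + j) ∩ E (N + M)) := by
      rw [Set.iUnion₂_inter]
      exact measureReal_biUnion_finset_le _ _
    rw [hU]
    linarith

theorem union_asymp (hE : ∀ n, MeasurableSet (E n)) (hab : ∀ n, E n ⊆ Set.Ioo a b) {c K : ℝ}
    (hK : 0 ≤ K) {n₀ : ℕ} (h1 : Tendsto (fun n => volume.real (E n) / rr n) atTop (𝓝 c))
    (h2 : ∀ n m, n₀ ≤ n → n < m → volume.real (E n ∩ E m) ≤ K * (rr n * rr m)) :
    Tendsto (fun N : ℕ => volume.real {x | ∃ n, N ≤ n ∧ x ∈ E n} * (2 ^ N / N)) atTop (𝓝 (2 * c)) := by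
  have hfin : ∀ S : Set ℝ, S ⊆ Set.Ioo a b → volume S ≠ ⊤ := fun S hS =>
    ((measure_mono hS).trans_lt (by simp [Real.volume_Ioo])).ne
  set V : ℕ → Set ℝ := fun N => {x | ∃ n, N ≤ n ∧ x ∈ E n} with hV
  have hVab : ∀ N, V N ⊆ Set.Ioo a b := by
    rintro N x ⟨n, _, hx⟩
    exact hab n hx
  have hc0 : 0 ≤ c := ge_of_tendsto h1 (Eventually.of_forall fun n =>
    div_nonneg measureReal_nonneg (rr_pos n).le)
  -- upper bound
  have hup : ∀ c' : ℝ, c < c' → ∀ᶠ N : ℕ in atTop, volume.real (V N) ≤ c' * TT N := by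
    intro c' hc'
    obtain ⟨n₁, hn₁⟩ := eventually_atTop.1 (h1.eventually_lt_const hc')
    filter_upwards [eventually_ge_atTop n₁] with N hN
    have hc'0 : 0 ≤ c' := by linarith
    have e1 : volume (V N) ≤ ∑' i, volume (E (N + i)) := by
      refine le_trans (measure_mono ?_) (measure_iUnion_le _)
      rintro x ⟨n, hn, hx⟩
      rw [Set.mem_iUnion]
      exact ⟨n - N, by rw [Nat.add_sub_cancel' hn]; exact hx⟩
    have e2 : ∑' i, volume (E (N + i)) ≤ ∑' i, ENNReal.ofReal (c' * rr (N + i)) := by
      refine ENNReal.tsum_le_tsum fun i => ?_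
      rw [← ofReal_measureReal (hfin _ (hab _))]
      refine ENNReal.ofReal_le_ofReal ?_
      have := hn₁ (N + i) (by omega)
      rw [div_lt_iff₀ (rr_pos _)] at this
      exact this.le
    have hs := (hasSum_rr N).mul_left c'
    have e3 : ∑' i, ENNReal.ofReal (c' * rr (N + i)) = ENNReal.ofReal (c' * TT N) := by
      rw [← ENNReal.ofReal_tsum_of_nonneg (fun i => mul_nonneg hc'0 (rr_pos _).le) hs.summable,
        hs.tsum_eq]
    rw [e3] at e2
    have e4 := e1.trans e2
    rw [← ofReal_measureReal (hfin _ (hVab N)),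
      ENNReal.ofReal_le_ofReal_iff (mul_nonneg hc'0 (TT_pos N).le)] at e4
    exact e4
  -- lower bound
  have hlow : ∀ c' : ℝ, c' < c → ∀ᶠ N : ℕ in atTop, c' * TT N - K * (TT N * TT N) ≤ volume.real (V N) := by
    intro c' hc'
    obtain ⟨n₁, hn₁⟩ := eventually_atTop.1 (h1.eventually_const_lt hc')
    filter_upwards [eventually_ge_atTop (max n₁ n₀)] with N hN
    have hN1 : n₁ ≤ N := (le_max_left _ _).trans hN
    have hN0 : n₀ ≤ N := (le_max_right _ _).trans hN
    have hM : ∀ M : ℕ, c' * (TT N - TT (N + M)) - K * (TT N * TT N) ≤ volume.real (V N) := by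
      intro M
      have e1 : volume.real (⋃ i ∈ range M, E (N + i)) ≤ volume.real (V N) := by
        refine measureReal_mono ?_ (hfin _ (hVab N))
        intro x hx
        simp only [Set.mem_iUnion] at hx
        obtain ⟨i, _, hx⟩ := hx
        exact ⟨N + i, by omega, hx⟩
      have e2 : c' * (TT N - TT (N + M)) ≤ ∑ i ∈ range M, volume.real (E (N + i)) := by
        rw [← sum_rr, mul_sum]
        refine sum_le_sum fun i _ => ?_
        have := hn₁ (N + i) (by omega)
        rw [lt_div_iff₀ (rr_pos _)] at this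
        exact this.le
      have e3 : ∑ i ∈ range M, ∑ j ∈ range i, volume.real (E (N + j) ∩ E (N + i)) ≤
          K * (TT N * TT N) := by
        have hsM : ∀ M : ℕ, ∑ i ∈ range M, rr (N + i) ≤ TT N := fun M => by
          rw [sum_rr]; linarith [TT_pos (N + M)]
        calc ∑ i ∈ range M, ∑ j ∈ range i, volume.real (E (N + j) ∩ E (N + i)) ≤
            ∑ i ∈ range M, ∑ j ∈ range i, K * (rr (N + j) * rr (N + i)) :=
              sum_le_sum fun i _ => sum_le_sum fun j hj =>
                h2 _ _ (by omega) (by rw [mem_range] at hj; omega)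
          _ = ∑ i ∈ range M, K * (rr (N + i) * ∑ j ∈ range i, rr (N + j)) := by
              refine sum_congr rfl fun i _ => ?_
              rw [mul_sum, mul_sum]
              exact sum_congr rfl fun j _ => by ring
          _ ≤ ∑ i ∈ range M, K * (rr (N + i) * TT N) :=
              sum_le_sum fun i _ => mul_le_mul_of_nonneg_left
                (mul_le_mul_of_nonneg_left (hsM i) (rr_pos _).le) hK
          _ = K * ((∑ i ∈ range M, rr (N + i)) * TT N) := by rw [sum_mul, mul_sum]
          _ ≤ K * (TT N * TT N) := mul_le_mul_of_nonneg_left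
                (mul_le_mul_of_nonneg_right (hsM M) (TT_pos N).le) hK
      have e4 := bonf hE hab N M
      linarith
    have hlim : Tendsto (fun M : ℕ => c' * (TT N - TT (N + M)) - K * (TT N * TT N)) atTop
        (𝓝 (c' * (TT N - 0) - K * (TT N * TT N))) := by
      have h : Tendsto (fun M => TT (N + M)) atTop (𝓝 0) :=
        TT_tendsto.comp (tendsto_add_atTop_nat N |>.congr fun M => add_comm M N)
      exact ((h.const_sub _).const_mul _).sub_const _
    have := le_of_tendsto hlim (Eventually.of_forall hM)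
    rwa [sub_zero] at this
  -- the ratio
  have hrho : Tendsto (fun N => volume.real (V N) / TT N) atTop (𝓝 c) := by
    refine tendsto_order.2 ⟨fun l hl => ?_, fun u hu => ?_⟩
    · have hKT : Tendsto (fun N => K * TT N) atTop (𝓝 0) := by
        simpa using TT_tendsto.const_mul K
      have hm : (l + c) / 2 < c := by linarith
      filter_upwards [hlow _ hm, hKT.eventually_lt_const (show (0 : ℝ) < (c - l) / 2 by linarith)]
        with N h3 h4
      rw [lt_div_iff₀ (TT_pos N)]
      have := TT_pos N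
      nlinarith
    · have hm : c < (u + c) / 2 := by linarith
      filter_upwards [hup _ hm] with N h3
      rw [div_lt_iff₀ (TT_pos N)]
      have := TT_pos N
      nlinarith
  have hTT : Tendsto (fun N : ℕ => TT N * (2 ^ N / N)) atTop (𝓝 2) := by
    have h3 : Tendsto (fun N : ℕ => 2 + 4 / (N : ℝ)) atTop (𝓝 (2 + 0)) :=
      (tendsto_const_div_atTop_nhds_zero_nat 4).const_add 2
    rw [add_zero] at h3
    refine h3.congr' ?_
    filter_upwards [eventually_ge_atTop 1] with N hN
    have : (0 : ℝ) < N := by exact_mod_cast hN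
    unfold TT
    field_simp
    ring
  have h3 := hrho.mul hTT
  rw [mul_comm c 2] at h3
  refine h3.congr fun N => ?_
  have := (TT_pos N).ne'
  change volume.real (V N) / TT N * (TT N * (2 ^ N / N)) = volume.real (V N) * (2 ^ N / N)
  field_simp

end

end Pool.Agent.Q26.FN
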