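import Pool.Agent.Q26.FN.Weight
import Pool.Agent.Q26.FN.Union
import Pool.Agent.W66.CK

set_option autoImplicit false

/-!
# Fermat numbers to real bases
-/

namespace Pool.Agent.Q26.FN

open Finset Filter Topology MeasureTheory
open Pool.Agent.H447R2.ML (Loc pair_bound mean_family ff_eq_floor)
open Pool.Agent.W66C (yy yy1 yy2 fam_cur amp Cur measurable_yy)
open Pool.Agent.H305R2 (roughPart ff measurable_ff ff_nonneg ff_le_one)

/-- the threshold -/
def pp (n : ℕ) : ℕ := 2 ^ (n + 1)

lemma pp_pos (n : ℕ) : (0 : ℝ) < pp n := by unfold pp; positivity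

lemma pp_tendsto : Tendsto pp atTop atTop := by
  unfold pp
  exact (tendsto_pow_atTop_atTop_of_one_lt (by norm_num)).comp (tendsto_add_atTop_nat 1)

lemma log_pp (n : ℕ) : Real.log (pp n) = (n + 1) * Real.log 2 := by
  unfold pp
  push_cast
  rw [Real.log_pow]
  push_cast
  ring

/-- the rough part of the `n`-th Fermat number to the base `x` with the amplitude `A x` -/
noncomputable def WW (A : ℝ → ℝ) (x : ℝ) (n : ℕ) : ℕ := roughPart (2 ^ (n + 1)) ⌊A x * (x ^ (2 ^ n) + 1)⌋₊

/-- the data of the amplitude -/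
structure Dat (A H H' H'' : ℝ → ℝ) : Prop where
  pos : ∀ x, 1 < x → 0 < A x
  m : Measurable H
  e : ∀ t, 0 < t → H t = Real.log (A (Real.exp (2 * t)))
  d1 : ∀ t, 0 < t → HasDerivAt H (H' t) t
  d2 : ∀ t, 0 < t → HasDerivAt H' (H'' t) t
  c : ContinuousOn H'' (Set.Ioi 0)

lemma exists_dat {A : ℝ → ℝ} (hA : ContDiffOn ℝ 2 A (Set.Ioi 1)) (hpos : ∀ x, 1 < x → 0 < A x) :
    ∃ H H' H'' : ℝ → ℝ, Dat A H H' H'' := by
  have hg : ∀ t : ℝ, HasDerivAt (fun t : ℝ => Real.exp (2 * t)) (2 * Real.exp (2 * t)) t := fun t => by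
    have := ((hasDerivAt_id t).const_mul 2).exp
    simpa [mul_comm] using this
  have hg' : ∀ t : ℝ, HasDerivAt (fun t : ℝ => 2 * Real.exp (2 * t)) (4 * Real.exp (2 * t)) t := fun t => by
    have := (hg t).const_mul 2
    rw [← mul_assoc] at this
    norm_num at this
    exact this
  obtain ⟨H, H', H'', h1, h2, h3, h4, h5⟩ := amp (c0 := 0) (g := fun t => Real.exp (2 * t))
    (g' := fun t => 2 * Real.exp (2 * t)) (g'' := fun t => 4 * Real.exp (2 * t)) hA hpos (by fun_prop)
    hg hg' (by fun_prop) (fun t ht => by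
      rw [← Real.exp_zero]
      exact Real.exp_lt_exp.2 (by linarith))
  exact ⟨H, H', H'', hpos, h1, h2, h3, h4, h5⟩

section

variable {A H H' H'' : ℝ → ℝ} (hD : Dat A H H' H'')

/-- the phase function -/
noncomputable def Y (H : ℝ → ℝ) (n : ℕ) (t : ℝ) : ℝ := yy 1 0 1 H (pp n) t

/-- the indicator -/
noncomputable def FF (H : ℝ → ℝ) (n : ℕ) (t : ℝ) : ℝ := ff (pp n) (Y H n t)

include hD

lemma Y_meas (n : ℕ) : Measurable (Y H n) := measurable_yy 1 0 1 hD.m (pp n)

lemma FF_meas (n : ℕ) : Measurable (FF H n) := (measurable_ff _).comp (Y_meas hD n)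

omit hD in
lemma FF_nonneg (n : ℕ) (t : ℝ) : 0 ≤ FF H n t := ff_nonneg _ _

omit hD in
lemma FF_le (n : ℕ) (t : ℝ) : FF H n t ≤ 1 := ff_le_one _ _

omit hD in
lemma FF_cases (n : ℕ) (t : ℝ) : FF H n t = 0 ∨ FF H n t = 1 := by
  unfold FF ff
  split_ifs
  · right; rfl
  · left; rfl

lemma val_pos (n : ℕ) {x : ℝ} (hx : 1 < x) : 0 < A x * (x ^ (2 ^ n) + 1) := by
  have := hD.pos x hx
  have : 0 < x := by linarith
  positivity

/-- the phase function is the logarithm of the value -/
lemma Y_eq (n : ℕ) {x : ℝ} (hx : 1 < x) :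
    Y H n (Real.log x / 2) = Real.log (A x * (x ^ (2 ^ n) + 1)) := by
  have hx0 : 0 < x := by linarith
  have hl : 0 < Real.log x := Real.log_pos hx
  have hA := hD.pos x hx
  unfold Y yy
  rw [hD.e _ (by positivity)]
  have e1 : (2 : ℝ) * (Real.log x / 2) = Real.log x := by ring
  rw [e1, Real.exp_log hx0]
  have e2 : (pp n : ℝ) * (Real.log x / 2) = Real.log (x ^ (2 ^ n)) := by
    rw [Real.log_pow]
    unfold pp
    push_cast
    ring
  have e3 : (pp n : ℝ) * (1 * (Real.log x / 2) - 0) = Real.log (x ^ (2 ^ n)) := by rw [← e2]; ring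
  have hX : 0 < x ^ (2 ^ n) := by positivity
  rw [e3, e2, Real.exp_neg, Real.exp_log hX, one_mul]
  have e4 : Real.log (A x * (x ^ (2 ^ n) + 1)) = Real.log (A x) + Real.log (x ^ (2 ^ n) + 1) :=
    Real.log_mul hA.ne' (by positivity)
  have e5 : x ^ (2 ^ n) + 1 = x ^ (2 ^ n) * (1 + (x ^ (2 ^ n))⁻¹) := by field_simp
  rw [e4, e5, Real.log_mul hX.ne' (by positivity)]
  ring

lemma FF_eq (n : ℕ) {x : ℝ} (hx : 1 < x) (hne : ∀ m : ℕ, A x * (x ^ (2 ^ n) + 1) ≠ m) :
    FF H n (Real.log x / 2) = if (WW A x n).Prime then 1 else 0 := by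
  unfold FF
  rw [Y_eq hD n hx]
  exact ff_eq_floor (val_pos hD n hx) hne

/-- the local families -/
lemma fam {a0 a1 : ℝ} (h0 : 0 < a0) (h1 : a0 < a1) : ∃ D : ℝ, 0 ≤ D ∧ ∀ᶠ p : ℕ in atTop,
    Loc a0 a1 D p (yy 1 0 1 H p) (yy1 1 0 1 H' p) := by
  obtain ⟨D, hD0, h⟩ := fam_cur (m1 := 1) (m0 := 0) (s := 1) (c0 := 0) one_pos (by simp) (by simp)
    hD.d1 hD.d2 hD.c a0 a1 h0 h1
  exact ⟨D, hD0, h.mono fun p hp => hp.loc⟩

/-- the exceptional set is countable -/
lemma exc {a b : ℝ} (ha : 1 < a) (hab : a < b) : ∃ (n₀ : ℕ) (Z : Set ℝ), Z.Countable ∧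
    ∀ n, n₀ ≤ n → ∀ x ∈ Set.Ioo a b, x ∉ Z → (FF H n (Real.log x / 2) = 1 ↔ (WW A x n).Prime) := by
  have hla : 0 < Real.log a := Real.log_pos ha
  have hlab : Real.log a < Real.log b := Real.log_lt_log (by linarith) hab
  obtain ⟨D, hD0, hev⟩ := fam hD (a0 := Real.log a / 2) (a1 := Real.log b / 2) (by positivity)
    (by linarith)
  have hl : ∀ᶠ p : ℕ in atTop, 3 * D < p := tendsto_natCast_atTop_atTop.eventually_gt_atTop _
  obtain ⟨n₀, hn₀⟩ := eventually_atTop.1 (pp_tendsto.eventually (hev.and hl))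
  refine ⟨n₀, ⋃ n : ℕ, ⋃ m : ℕ, {x | x ∈ Set.Ioo a b ∧ n₀ ≤ n ∧ A x * (x ^ (2 ^ n) + 1) = m}, ?_, ?_⟩
  · refine Set.countable_iUnion fun n => Set.countable_iUnion fun m => ?_
    refine Set.Subsingleton.countable ?_
    rintro x ⟨hx, hn, hx2⟩ z ⟨hz, _, hz2⟩
    have hx1 : 1 < x := ha.trans hx.1
    have hz1 : 1 < z := ha.trans hz.1
    have h5 : Y H n (Real.log x / 2) = Y H n (Real.log z / 2) := by
      rw [Y_eq hD n hx1, Y_eq hD n hz1, hx2, hz2]
    have hxI : Real.log x / 2 ∈ Set.Icc (Real.log a / 2) (Real.log b / 2) := by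
      have h6 := Real.log_lt_log (by linarith) hx.1
      have h7 := Real.log_lt_log (by linarith) hx.2
      exact ⟨by linarith, by linarith⟩
    have hzI : Real.log z / 2 ∈ Set.Icc (Real.log a / 2) (Real.log b / 2) := by
      have h6 := Real.log_lt_log (by linarith) hz.1
      have h7 := Real.log_lt_log (by linarith) hz.2
      exact ⟨by linarith, by linarith⟩
    have h8 := ((hn₀ n hn).1.strict (hn₀ n hn).2 hD0).injOn hxI hzI h5
    have h9 : Real.log x = Real.log z := by linarith
    exact Real.log_injOn_pos (Set.mem_Ioi.2 (by linarith)) (Set.mem_Ioi.2 (by linarith)) h9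
  · intro n hn x hx hxZ
    have hne : ∀ m : ℕ, A x * (x ^ (2 ^ n) + 1) ≠ m := by
      intro m hm
      refine hxZ ?_
      simp only [Set.mem_iUnion]
      exact ⟨n, m, hx, hn, hm⟩
    rw [FF_eq hD n (ha.trans hx.1) hne]
    split_ifs with h
    · simp [h]
    · simp [h]

omit hD in
/-- change of variables -/
lemma cov {a b : ℝ} (ha : 1 < a) (hab : a < b) (G : ℝ → ℝ) :
    ∫ x in Set.Ioc a b, G (Real.log x / 2) =
      ∫ t in Set.Ioc (Real.log a / 2) (Real.log b / 2), G t * (2 * Real.exp (2 * t)) := by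
  have hb : 1 < b := ha.trans hab
  have himg : (fun t : ℝ => Real.exp (2 * t)) '' Set.Ioc (Real.log a / 2) (Real.log b / 2) =
      Set.Ioc a b := by
    ext x
    constructor
    · rintro ⟨t, ht, rfl⟩
      constructor
      · change a < Real.exp (2 * t)
        rw [← Real.log_lt_iff_lt_exp (by linarith)]
        linarith [ht.1]
      · change Real.exp (2 * t) ≤ b
        rw [← Real.le_log_iff_exp_le (by linarith)]
        linarith [ht.2]
    · intro hx
      have hx0 : 0 < x := by linarith [hx.1]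
      refine ⟨Real.log x / 2, ⟨?_, ?_⟩, ?_⟩
      · have := Real.log_lt_log (by linarith) hx.1
        linarith
      · have := Real.log_le_log hx0 hx.2
        linarith
      · change Real.exp (2 * (Real.log x / 2)) = x
        rw [show 2 * (Real.log x / 2) = Real.log x by ring, Real.exp_log hx0]
  have hd : ∀ t ∈ Set.Ioc (Real.log a / 2) (Real.log b / 2), HasDerivWithinAt
      (fun t : ℝ => Real.exp (2 * t)) (2 * Real.exp (2 * t))
      (Set.Ioc (Real.log a / 2) (Real.log b / 2)) t := fun t _ => by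
    have := ((hasDerivAt_id t).const_mul 2).exp
    have h2 : HasDerivAt (fun t : ℝ => Real.exp (2 * t)) (2 * Real.exp (2 * t)) t := by
      simpa [mul_comm] using this
    exact h2.hasDerivWithinAt
  have hinj : Set.InjOn (fun t : ℝ => Real.exp (2 * t)) (Set.Ioc (Real.log a / 2) (Real.log b / 2)) := by
    intro s _ t _ h
    have := Real.exp_injective h
    linarith
  have h := integral_image_eq_integral_abs_deriv_smul measurableSet_Ioc hd hinj
    (fun x => G (Real.log x / 2))
  rw [himg] at h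
  rw [h]
  refine setIntegral_congr_fun measurableSet_Ioc fun t _ => ?_
  change |2 * Real.exp (2 * t)| • G (Real.log (Real.exp (2 * t)) / 2) = G t * (2 * Real.exp (2 * t))
  rw [abs_of_pos (by positivity), Real.log_exp, smul_eq_mul, mul_comm, show 2 * t / 2 = t by ring]

/-- the measurable versions of the events -/
def EE (H : ℝ → ℝ) (a b : ℝ) (n : ℕ) : Set ℝ := {x | x ∈ Set.Ioo a b ∧ FF H n (Real.log x / 2) = 1}

lemma EE_meas (a b : ℝ) (n : ℕ) : MeasurableSet (EE H a b n) := by
  refine measurableSet_Ioo.inter ?_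
  have h1 : Measurable fun x : ℝ => FF H n (Real.log x / 2) :=
    (FF_meas hD n).comp (Real.measurable_log.div_const 2)
  exact h1 (measurableSet_singleton 1)

omit hD in
lemma EE_sub (a b : ℝ) (n : ℕ) : EE H a b n ⊆ Set.Ioo a b := fun _ hx => hx.1

lemma EE_real {a b : ℝ} (ha : 1 < a) (hab : a < b) (n : ℕ) : volume.real (EE H a b n) =
    ∫ t in Set.Ioc (Real.log a / 2) (Real.log b / 2), FF H n t * (2 * Real.exp (2 * t)) := by
  rw [← cov ha hab (FF H n)]
  have h1 : ∀ x, FF H n (Real.log x / 2) =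
      ({x | FF H n (Real.log x / 2) = 1} : Set ℝ).indicator (fun _ => (1 : ℝ)) x := by
    intro x
    rw [Set.indicator_apply]
    rcases FF_cases (H := H) n (Real.log x / 2) with h | h
    · simp [h]
    · simp [h]
  have hms : MeasurableSet {x : ℝ | FF H n (Real.log x / 2) = 1} := by
    have h1 : Measurable fun x : ℝ => FF H n (Real.log x / 2) :=
      (FF_meas hD n).comp (Real.measurable_log.div_const 2)
    exact h1 (measurableSet_singleton 1)
  calc volume.real (EE H a b n) = ∫ x in Set.Ioo a b,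
        ({x | FF H n (Real.log x / 2) = 1} : Set ℝ).indicator (fun _ => (1 : ℝ)) x := by
          rw [setIntegral_indicator hms, setIntegral_const, smul_eq_mul, mul_one]
          rfl
    _ = ∫ x in Set.Ioc a b, ({x | FF H n (Real.log x / 2) = 1} : Set ℝ).indicator (fun _ => (1 : ℝ)) x :=
          (integral_Ioc_eq_integral_Ioo).symm
    _ = ∫ x in Set.Ioc a b, FF H n (Real.log x / 2) := by simp_rw [← h1]

lemma EE_inter {a b : ℝ} (ha : 1 < a) (hab : a < b) (n m : ℕ) :
    volume.real (EE H a b n ∩ EE H a b m) ≤ 2 * b *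
      ∫ t in Set.Ioc (Real.log a / 2) (Real.log b / 2), FF H n t * FF H m t := by
  have hb : 1 < b := ha.trans hab
  have hmn : ∀ k, Measurable fun x : ℝ => FF H k (Real.log x / 2) := fun k =>
    (FF_meas hD k).comp (Real.measurable_log.div_const 2)
  have hms : ∀ k, MeasurableSet {x : ℝ | FF H k (Real.log x / 2) = 1} := fun k =>
    (hmn k) (measurableSet_singleton 1)
  have h1 : ∀ x, FF H n (Real.log x / 2) * FF H m (Real.log x / 2) =
      ({x | FF H n (Real.log x / 2) = 1} ∩ {x | FF H m (Real.log x / 2) = 1} : Set ℝ).indicator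
        (fun _ => (1 : ℝ)) x := by
    intro x
    rw [Set.indicator_apply]
    rcases FF_cases (H := H) n (Real.log x / 2) with h | h <;>
      rcases FF_cases (H := H) m (Real.log x / 2) with h' | h' <;> simp [h, h']
  have e : volume.real (EE H a b n ∩ EE H a b m) =
      ∫ t in Set.Ioc (Real.log a / 2) (Real.log b / 2), FF H n t * FF H m t * (2 * Real.exp (2 * t)) := by
    rw [← cov ha hab (fun t => FF H n t * FF H m t)]
    calc volume.real (EE H a b n ∩ EE H a b m) = ∫ x in Set.Ioo a b,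
          ({x | FF H n (Real.log x / 2) = 1} ∩ {x | FF H m (Real.log x / 2) = 1} : Set ℝ).indicator
            (fun _ => (1 : ℝ)) x := by
            rw [setIntegral_indicator ((hms n).inter (hms m)), setIntegral_const, smul_eq_mul, mul_one]
            congr 1
            ext x
            simp only [EE, Set.mem_inter_iff, Set.mem_ofPred_eq]
            tauto
      _ = ∫ x in Set.Ioc a b,
          ({x | FF H n (Real.log x / 2) = 1} ∩ {x | FF H m (Real.log x / 2) = 1} : Set ℝ).indicator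
            (fun _ => (1 : ℝ)) x := (integral_Ioc_eq_integral_Ioo).symm
      _ = ∫ x in Set.Ioc a b, FF H n (Real.log x / 2) * FF H m (Real.log x / 2) := by simp_rw [← h1]
  have hmeas : Measurable fun t => FF H n t * FF H m t := (FF_meas hD n).mul (FF_meas hD m)
  have hbd : ∀ t, 0 ≤ FF H n t * FF H m t ∧ FF H n t * FF H m t ≤ 1 := fun t => by
    rcases FF_cases (H := H) n t with h | h <;> rcases FF_cases (H := H) m t with h' | h' <;>
      simp [h, h']
  rw [e, ← integral_const_mul]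
  have hint : IntegrableOn (fun t => FF H n t * FF H m t)
      (Set.Ioc (Real.log a / 2) (Real.log b / 2)) := by
    refine Measure.integrableOn_of_bounded (M := 1) (by simp) hmeas.aestronglyMeasurable ?_
    exact Eventually.of_forall fun t => by
      rw [Real.norm_eq_abs, abs_of_nonneg (hbd t).1]; exact (hbd t).2
  refine setIntegral_mono_on ?_ (hint.const_mul _) measurableSet_Ioc fun t ht => ?_
  · refine Measure.integrableOn_of_bounded (M := 2 * b) (by simp)
      (hmeas.mul (by fun_prop)).aestronglyMeasurable ?_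
    filter_upwards [ae_restrict_mem measurableSet_Ioc] with t ht
    have h3 : Real.exp (2 * t) ≤ b := by
      rw [← Real.le_log_iff_exp_le (by linarith)]
      linarith [ht.2]
    have h4 := hbd t
    have h5 := Real.exp_pos (2 * t)
    rw [Real.norm_eq_abs, abs_of_nonneg (mul_nonneg h4.1 (by positivity))]
    nlinarith
  · have h3 : Real.exp (2 * t) ≤ b := by
      rw [← Real.le_log_iff_exp_le (by linarith)]
      linarith [ht.2]
    have h4 := hbd t
    nlinarith

/-- the first moment -/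
theorem mean {a b : ℝ} (ha : 1 < a) (hab : a < b) :
    Tendsto (fun n => volume.real (EE H a b n) / rr n) atTop
      (𝓝 (Real.exp Real.eulerMascheroniConstant * Real.log 2 * ∫ x in a..b, 1 / Real.log x)) := by
  have hla : 0 < Real.log a := Real.log_pos ha
  have hlab : Real.log a < Real.log b := Real.log_lt_log (by linarith) hab
  set s := Real.log a / 2 with hs
  set t := Real.log b / 2 with ht
  have hs0 : 0 < s := by positivity
  have hst : s < t := by linarith
  set G := Real.exp Real.eulerMascheroniConstant with hG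
  obtain ⟨D, hD0, hev⟩ := fam hD (a0 := s) (a1 := t) hs0 hst
  have hlim : ∀ v, s < v → v ≤ t →
      Tendsto (fun n => (∫ x in Set.Ioc s v, FF H n x) * (pp n / Real.log (pp n))) atTop
        (𝓝 ((fun u => G * Real.log u) v - (fun u => G * Real.log u) s)) := by
    intro v hv1 hv2
    have h := (mean_family hs0 hD0 hev (s := s) (t := v) le_rfl hv1 hv2).comp pp_tendsto
    have e : G * (Real.log v - Real.log s) = (fun u => G * Real.log u) v - (fun u => G * Real.log u) s :=
      mul_sub _ _ _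
    rw [← e]
    exact h
  have hw := weighted (F := FF H) (c := fun n => (pp n : ℝ) / Real.log (pp n)) (L := fun u => G * Real.log u)
    (g := fun u => G * u⁻¹) (W := fun u => 2 * Real.exp (2 * u)) (W' := fun u => 4 * Real.exp (2 * u))
    hst (FF_meas hD) (fun n x => FF_nonneg n x) (fun n x => FF_le n x)
    (fun n => div_nonneg (pp_pos n).le (Real.log_natCast_nonneg _))
    (fun u hu => (Real.hasDerivAt_log (by linarith [hu.1] : u ≠ 0)).const_mul G)
    (by
      refine continuousOn_const.mul (ContinuousOn.inv₀ continuousOn_id fun u hu => ?_)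
      exact ne_of_gt (lt_of_lt_of_le hs0 hu.1)) hlim
    (fun u => by
      have := ((hasDerivAt_id u).const_mul 2).exp
      have h2 : HasDerivAt (fun t : ℝ => Real.exp (2 * t)) (2 * Real.exp (2 * u)) u := by
        simpa [mul_comm] using this
      have h3 := h2.const_mul 2
      rw [← mul_assoc] at h3
      norm_num at h3
      exact h3) (by fun_prop)
  -- the constant
  have hconst : ∫ u in s..t, G * u⁻¹ * (2 * Real.exp (2 * u)) = 2 * G * ∫ x in a..b, 1 / Real.log x := by
    rw [intervalIntegral.integral_of_le hst.le, ← cov ha hab (fun u => G * u⁻¹),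
      intervalIntegral.integral_of_le hab.le, ← integral_const_mul]
    refine setIntegral_congr_fun measurableSet_Ioc fun x _ => ?_
    change G * (Real.log x / 2)⁻¹ = 2 * G * (1 / Real.log x)
    rw [inv_div]
    ring
  rw [hconst] at hw
  have hw2 := hw.mul_const (Real.log 2 / 2)
  have e1 : 2 * G * (∫ x in a..b, 1 / Real.log x) * (Real.log 2 / 2) =
      G * Real.log 2 * ∫ x in a..b, 1 / Real.log x := by ring
  rw [e1] at hw2
  refine hw2.congr fun n => ?_
  rw [EE_real hD ha hab, ← hs, ← ht, log_pp]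
  have hl2 : 0 < Real.log 2 := Real.log_pos (by norm_num)
  have hn : (0 : ℝ) < n + 1 := by positivity
  generalize (∫ x in Set.Ioc s t, FF H n x * (2 * Real.exp (2 * x))) = I
  unfold rr pp
  push_cast
  rw [pow_succ]
  field_simp

/-- the pair bound -/
theorem pair {a b : ℝ} (ha : 1 < a) (hab : a < b) : ∃ (K : ℝ) (n₀ : ℕ), 0 ≤ K ∧
    ∀ n m, n₀ ≤ n → n < m → volume.real (EE H a b n ∩ EE H a b m) ≤ K * (rr n * rr m) := by
  have hla : 0 < Real.log a := Real.log_pos ha
  have hlab : Real.log a < Real.log b := Real.log_lt_log (by linarith) hab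
  set s := Real.log a / 2 with hs
  set t := Real.log b / 2 with ht
  have hs0 : 0 < s := by positivity
  have hst : s < t := by linarith
  obtain ⟨D, hD0, hev⟩ := fam hD (a0 := s / 2) (a1 := t + 1) (by positivity) (by linarith)
  obtain ⟨K, hK, P, hP⟩ := pair_bound (a0 := s / 2) (a1 := t + 1) (D := D) (b0 := s) (b1 := t)
    (by positivity) hD0 (by linarith) (by linarith)
  -- the size condition
  have hB : 0 < 64 / (s / 2) := by positivity
  have hsmall : ∀ᶠ q : ℕ in atTop, 64 / (s / 2) * (Real.log q * Real.log (Real.log q)) ≤ q / 2 := by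
    have h1 : ∀ᶠ x : ℝ in atTop, 64 / (s / 2) * (Real.log x * Real.log (Real.log x)) ≤ x / 2 := by
      have h2 := (Real.isLittleO_pow_log_id_atTop (n := 2)).bound (c := 1 / (2 * (64 / (s / 2)))) (by positivity)
      filter_upwards [h2, eventually_ge_atTop (1 : ℝ), Real.tendsto_log_atTop.eventually_ge_atTop 1]
        with x h3 h4 h5
      have h6 : Real.log (Real.log x) ≤ Real.log x := (Real.log_le_sub_one_of_pos (by linarith)).trans
        (by linarith)
      rw [Real.norm_eq_abs, Real.norm_eq_abs, abs_of_nonneg (by positivity), id,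
        abs_of_nonneg (by linarith)] at h3
      have h7 : Real.log x * Real.log (Real.log x) ≤ Real.log x ^ 2 := by
        rw [sq]
        exact mul_le_mul_of_nonneg_left h6 (by linarith)
      calc 64 / (s / 2) * (Real.log x * Real.log (Real.log x)) ≤
          64 / (s / 2) * (1 / (2 * (64 / (s / 2))) * x) :=
            mul_le_mul_of_nonneg_left (h7.trans h3) hB.le
        _ = x / 2 := by field_simp
    exact tendsto_natCast_atTop_atTop.eventually h1
  obtain ⟨n₀, hn₀⟩ := eventually_atTop.1 (pp_tendsto.eventually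
    (hev.and (hsmall.and (eventually_ge_atTop P))))
  refine ⟨2 * b * (K * ((t - s) + 1)) * (2 * (Real.log 2 / 2) ^ 2), n₀, ?_, ?_⟩
  · have : 0 < t - s := by linarith
    have : 0 < b := by linarith
    positivity
  intro n m hn hnm
  have hb0 : 0 < b := by linarith
  have hpm : (2 : ℝ) * pp n ≤ pp m := by
    unfold pp
    push_cast
    rw [← pow_succ']
    exact pow_le_pow_right₀ (by norm_num) (by omega)
  have hp1 : (1 : ℝ) ≤ pp n := by
    unfold pp
    push_cast
    exact one_le_pow₀ (by norm_num)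
  have hppos := pp_pos n
  have hqpos := pp_pos m
  have hlt : pp n < pp m := by
    have : (pp n : ℝ) < pp m := by linarith
    exact_mod_cast this
  obtain ⟨g1, _, g3⟩ := hn₀ n hn
  obtain ⟨g4, g5, _⟩ := hn₀ m (by omega)
  have h1 := hP (pp n) (pp m) g3 hlt _ _ _ _ g1 g4 (by linarith) s t le_rfl hst.le le_rfl
  have h2 := EE_inter hD ha hab n m
  have hl2 : 0 < Real.log 2 := Real.log_pos (by norm_num)
  have hlog : ∀ k : ℕ, Real.log (pp k) / pp k = Real.log 2 / 2 * rr k := by
    intro k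
    rw [log_pp]
    unfold rr pp
    push_cast
    rw [pow_succ]
    field_simp
  have h3 : Real.log (pp m) / (pp m - pp n) ≤ 2 * (Real.log (pp m) / pp m) := by
    rw [div_le_iff₀ (by linarith)]
    have h4 : 0 ≤ Real.log (pp m) := Real.log_natCast_nonneg _
    have h5 : 2 * (Real.log (pp m) / pp m) * (pp m - pp n) =
        Real.log (pp m) * (2 * (pp m - pp n) / pp m) := by field_simp
    rw [h5]
    refine le_mul_of_one_le_right h4 ?_
    rw [le_div_iff₀ hqpos]
    linarith
  have h4 : 0 ≤ Real.log (pp n) / pp n := div_nonneg (Real.log_natCast_nonneg _) hppos.le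
  have h5 : 1 / (pp n : ℝ) ≤ 1 := by rw [div_le_one hppos]; exact hp1
  have h6 : 0 < t - s := by linarith
  refine h2.trans ?_
  calc 2 * b * ∫ t in Set.Ioc s t, FF H n t * FF H m t ≤
      2 * b * (K * ((t - s) + 1 / pp n) * (Real.log (pp n) / pp n) *
        (Real.log (pp m) / (pp m - pp n))) := mul_le_mul_of_nonneg_left h1 (by positivity)
    _ ≤ 2 * b * (K * ((t - s) + 1) * (Real.log (pp n) / pp n) * (2 * (Real.log (pp m) / pp m))) := by
        refine mul_le_mul_of_nonneg_left ?_ (by positivity)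
        refine mul_le_mul (mul_le_mul_of_nonneg_right
          (mul_le_mul_of_nonneg_left (by linarith) hK.le) h4) h3 ?_ (by positivity)
        exact div_nonneg (Real.log_natCast_nonneg _) (by linarith)
    _ = 2 * b * (K * ((t - s) + 1)) * (2 * (Real.log 2 / 2) ^ 2) * (rr n * rr m) := by
        rw [hlog n, hlog m]
        ring

/-- the events and their measurable versions -/
lemma same {a b : ℝ} (ha : 1 < a) (hab : a < b) : ∃ n₀ : ℕ, ∀ N, n₀ ≤ N →
    volume.real {x | x ∈ Set.Ioo a b ∧ (WW A x N).Prime} = volume.real (EE H a b N) ∧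
    (∀ m, N ≤ m → volume.real {x | x ∈ Set.Ioo a b ∧ (WW A x N).Prime ∧ (WW A x m).Prime} =
      volume.real (EE H a b N ∩ EE H a b m)) ∧
    volume.real {x | x ∈ Set.Ioo a b ∧ ∃ n, N ≤ n ∧ (WW A x n).Prime} =
      volume.real {x | ∃ n, N ≤ n ∧ x ∈ EE H a b n} := by
  obtain ⟨n₀, Z, hZ, h⟩ := exc hD ha hab
  have hZ0 : ∀ᵐ x : ℝ, x ∉ Z := by
    rw [ae_iff]
    simpa using hZ.measure_zero volume
  refine ⟨n₀, fun N hN => ⟨?_, fun m hm => ?_, ?_⟩⟩
  · refine measureReal_congr ?_
    filter_upwards [hZ0] with x hx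
    refine propext ⟨fun hx2 => ⟨hx2.1, (h N hN x hx2.1 hx).2 hx2.2⟩, fun hx2 => ?_⟩
    exact ⟨hx2.1, (h N hN x hx2.1 hx).1 hx2.2⟩
  · refine measureReal_congr ?_
    filter_upwards [hZ0] with x hx
    refine propext ⟨fun hx2 => ⟨⟨hx2.1, (h N hN x hx2.1 hx).2 hx2.2.1⟩,
      ⟨hx2.1, (h m (hN.trans hm) x hx2.1 hx).2 hx2.2.2⟩⟩, fun hx2 => ?_⟩
    exact ⟨hx2.1.1, (h N hN x hx2.1.1 hx).1 hx2.1.2, (h m (hN.trans hm) x hx2.1.1 hx).1 hx2.2.2⟩
  · refine measureReal_congr ?_
    filter_upwards [hZ0] with x hx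
    refine propext ⟨fun hx2 => ?_, fun hx2 => ?_⟩
    · obtain ⟨h1, n, hn, h2⟩ := hx2
      exact ⟨n, hn, h1, (h n (hN.trans hn) x h1 hx).2 h2⟩
    · obtain ⟨n, hn, h1, h2⟩ := hx2
      exact ⟨h1, n, hn, (h n (hN.trans hn) x h1 hx).1 h2⟩

end

/-- **The law.** -/
theorem law {A : ℝ → ℝ} (hA : ContDiffOn ℝ 2 A (Set.Ioi 1)) (hpos : ∀ x, 1 < x → 0 < A x)
    {a b : ℝ} (ha : 1 < a) (hab : a < b) :
    Tendsto (fun n : ℕ => volume.real {x | x ∈ Set.Ioo a b ∧ (WW A x n).Prime} * (2 ^ n / n)) atTop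
      (𝓝 (Real.exp Real.eulerMascheroniConstant * Real.log 2 * ∫ x in a..b, 1 / Real.log x)) ∧
    Tendsto (fun N : ℕ => volume.real {x | x ∈ Set.Ioo a b ∧ ∃ n, N ≤ n ∧ (WW A x n).Prime} *
      (2 ^ N / N)) atTop
      (𝓝 (2 * (Real.exp Real.eulerMascheroniConstant * Real.log 2 * ∫ x in a..b, 1 / Real.log x))) ∧
    ∃ (K : ℝ) (n₀ : ℕ), ∀ n m, n₀ ≤ n → n < m →
      volume.real {x | x ∈ Set.Ioo a b ∧ (WW A x n).Prime ∧ (WW A x m).Prime} ≤
        K * ((n / 2 ^ n) * (m / 2 ^ m)) := by
  obtain ⟨H, H', H'', hD⟩ := exists_dat hA hpos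
  obtain ⟨n₀, hn₀⟩ := same hD ha hab
  obtain ⟨K, n₁, hK, hn₁⟩ := pair hD ha hab
  have hm := mean hD ha hab
  refine ⟨?_, ?_, 4 * K, max (max n₀ n₁) 1, fun n m hn hnm => ?_⟩
  · have h1 : Tendsto (fun n : ℕ => 1 + 1 / (n : ℝ)) atTop (𝓝 (1 + 0)) :=
      (tendsto_const_div_atTop_nhds_zero_nat 1).const_add 1
    have h2 := hm.mul h1
    rw [add_zero, mul_one] at h2
    refine h2.congr' ?_
    filter_upwards [eventually_ge_atTop (max n₀ 1)] with n hn
    have hn0 : (0 : ℝ) < n := by exact_mod_cast (by omega : 0 < n)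
    rw [(hn₀ n ((le_max_left _ _).trans hn)).1]
    unfold rr
    field_simp
  · refine (union_asymp (EE_meas hD a b) (EE_sub a b) hK hm hn₁).congr' ?_
    filter_upwards [eventually_ge_atTop n₀] with N hN
    rw [(hn₀ N hN).2.2]
  · have e1 : n₀ ≤ n := ((le_max_left _ _).trans (le_max_left _ _)).trans hn
    have e2 : n₁ ≤ n := ((le_max_right _ _).trans (le_max_left _ _)).trans hn
    have e3 : 1 ≤ n := (le_max_right _ _).trans hn
    rw [(hn₀ n e1).2.1 m hnm.le]
    refine (hn₁ n m e2 hnm).trans ?_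
    have hr : ∀ k : ℕ, 1 ≤ k → rr k ≤ 2 * (k / 2 ^ k) := by
      intro k hk
      have : (1 : ℝ) ≤ k := by exact_mod_cast hk
      unfold rr
      rw [mul_div_assoc']
      exact div_le_div_of_nonneg_right (by linarith) (by positivity)
    have h1 := hr n e3
    have h2 := hr m (by omega)
    calc K * (rr n * rr m) ≤ K * ((2 * (n / 2 ^ n)) * (2 * (m / 2 ^ m))) :=
          mul_le_mul_of_nonneg_left (mul_le_mul h1 h2 (rr_pos m).le (by positivity)) hK
      _ = 4 * K * ((n / 2 ^ n) * (m / 2 ^ m)) := by ring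

/-- almost every base has only finitely many -/
theorem finite_ae {A : ℝ → ℝ} (hA : ContDiffOn ℝ 2 A (Set.Ioi 1)) (hpos : ∀ x, 1 < x → 0 < A x) :
    ∀ᵐ x : ℝ, 1 < x → {n : ℕ | (WW A x n).Prime}.Finite := by
  have hab : ∀ a b : ℝ, 1 < a → a < b → ∀ᵐ x : ℝ, x ∈ Set.Ioo a b → {n : ℕ | (WW A x n).Prime}.Finite := by
    intro a b ha hab
    set S : ℕ → Set ℝ := fun N => {x | x ∈ Set.Ioo a b ∧ ∃ n, N ≤ n ∧ (WW A x n).Prime} with hS
    have hl := (law hA hpos ha hab).2.1
    have h1 : Tendsto (fun N : ℕ => (N : ℝ) / 2 ^ N) atTop (𝓝 0) := by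
      have h := tendsto_self_mul_const_pow_of_lt_one (r := (1 : ℝ) / 2) (by norm_num) (by norm_num)
      refine h.congr fun n => ?_
      rw [one_div, inv_pow, div_eq_mul_inv]
    have h2 := hl.mul h1
    rw [mul_zero] at h2
    have h3 : Tendsto (fun N => volume.real (S N)) atTop (𝓝 0) := by
      refine h2.congr' ?_
      filter_upwards [eventually_ge_atTop 1] with N hN
      have : (0 : ℝ) < N := by exact_mod_cast hN
      change volume.real (S N) * (2 ^ N / N) * (N / 2 ^ N) = volume.real (S N)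
      field_simp
    have hfin : ∀ N, volume (S N) ≠ ⊤ := fun N =>
      ((measure_mono (fun x hx => hx.1 : S N ⊆ Set.Ioo a b)).trans_lt (by simp [Real.volume_Ioo])).ne
    have h4 : volume (⋂ N, S N) = 0 := by
      have h5 : ∀ ε : ℝ, 0 < ε → volume (⋂ N, S N) ≤ ENNReal.ofReal ε := by
        intro ε hε
        obtain ⟨N, hN⟩ := (h3.eventually_lt_const hε).exists
        refine (measure_mono (Set.iInter_subset S N)).trans ?_
        rw [← ofReal_measureReal (hfin N)]
        exact ENNReal.ofReal_le_ofReal hN.le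
      refine le_antisymm (le_of_forall_gt_imp_ge_of_dense fun c hc => ?_) zero_le
      rcases eq_or_ne c ⊤ with rfl | hct
      · exact le_top
      · have := h5 c.toReal (ENNReal.toReal_pos hc.ne' hct)
        rwa [ENNReal.ofReal_toReal hct] at this
    rw [← compl_mem_ae_iff] at h4
    filter_upwards [h4] with x hx hxab
    rw [Set.mem_compl_iff, Set.mem_iInter] at hx
    push Not at hx
    obtain ⟨N, hN⟩ := hx
    refine (Set.finite_lt_nat N).subset fun n hn => ?_
    by_contra hc
    rw [Set.mem_ofPred_eq, not_lt] at hc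
    exact hN ⟨hxab, n, hc, hn⟩
  have hk : ∀ᵐ x : ℝ, ∀ k : ℕ, x ∈ Set.Ioo (1 + 1 / ((k : ℝ) + 1)) (k + 3) →
      {n : ℕ | (WW A x n).Prime}.Finite := by
    rw [ae_all_iff]
    intro k
    have hk0 : (0 : ℝ) ≤ k := Nat.cast_nonneg k
    have h3 : 0 < 1 / ((k : ℝ) + 1) := by positivity
    have h4 : 1 / ((k : ℝ) + 1) ≤ 1 := by rw [div_le_one (by linarith)]; linarith
    exact hab _ _ (by linarith) (by linarith)
  filter_upwards [hk] with x hx hx1
  obtain ⟨k, hk⟩ := exists_nat_gt (max (1 / (x - 1)) x)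
  have hk1 : 1 / (x - 1) < k := (le_max_left _ _).trans_lt hk
  have hk2 : x < k := (le_max_right _ _).trans_lt hk
  have hx0 : 0 < x - 1 := by linarith
  refine hx k ⟨?_, by linarith⟩
  have h3 : 1 / ((k : ℝ) + 1) < x - 1 := by
    rw [div_lt_iff₀ hx0] at hk1
    rw [div_lt_iff₀ (by have := Nat.cast_nonneg (α := ℝ) k; linarith)]
    linarith
  linarith

/-- at an even base with amplitude one the numbers are the generalised Fermat numbers -/
theorem even_base {A : ℝ → ℝ} {b : ℕ} (hb : Even b) (hA : A b = 1) (n : ℕ) :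
    WW A b n = b ^ (2 ^ n) + 1 := by
  have e : ⌊A (b : ℝ) * ((b : ℝ) ^ (2 ^ n) + 1)⌋₊ = b ^ (2 ^ n) + 1 := by
    rw [hA, one_mul]
    have : ((b : ℝ) ^ (2 ^ n) + 1) = ((b ^ (2 ^ n) + 1 : ℕ) : ℝ) := by push_cast; ring
    rw [this, Nat.floor_natCast]
  unfold WW
  rw [e]
  unfold roughPart
  have hne : b ^ (2 ^ n) + 1 ≠ 0 := by omega
  rw [List.filter_eq_self.2, Nat.prod_primeFactorsList hne]
  intro r hr
  have hrp := Nat.prime_of_mem_primeFactorsList hr
  have hrd := Nat.dvd_of_mem_primeFactorsList hr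
  have hr2 : r ≠ 2 := by
    rintro rfl
    have h1 : Even (b ^ (2 ^ n)) := hb.pow_of_ne_zero (by positivity)
    have h2 : Even (b ^ (2 ^ n) + 1) := even_iff_two_dvd.2 hrd
    rw [Nat.even_add_one] at h2
    exact h2 h1
  obtain ⟨k, hk⟩ := Nat.pow_pow_add_primeFactors_one_lt hrp hr2 hrd
  have hk0 : 0 < k := by
    rcases Nat.eq_zero_or_pos k with rfl | h
    · rw [zero_mul, zero_add] at hk
      exact absurd hk hrp.one_lt.ne'
    · exact h
  have : 2 ^ (n + 1) ≤ k * 2 ^ (n + 1) := Nat.le_mul_of_pos_left _ hk0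
  simp only [decide_eq_true_eq]
  omega

end Pool.Agent.Q26.FN
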