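import Mathlib

set_option autoImplicit false

/-!
# Weighted means from means over intervals
-/

namespace Pool.Agent.Q26.FN

open Finset Filter Topology MeasureTheory

/-- integration by parts for a bounded measurable function and a smooth weight -/
lemma parts_meas {F : ℝ → ℝ} (hF : Measurable F) (hF1 : ∀ x, |F x| ≤ 1) {W W' : ℝ → ℝ}
    (hW : ∀ x, HasDerivAt W (W' x) x) (hW' : Continuous W') {s t : ℝ} :
    ∫ x in Set.Ioc s t, F x * W x = W t * (∫ x in Set.Ioc s t, F x) -
      ∫ v in Set.Ioc s t, W' v * (∫ x in Set.Ioc s v, F x) := by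
  have hWc : Continuous W := continuous_iff_continuousAt.2 fun x => (hW x).continuousAt
  have hFi : ∀ a b : ℝ, IntegrableOn F (Set.Ioc a b) := fun a b => by
    refine Measure.integrableOn_of_bounded (M := 1) (by simp) hF.aestronglyMeasurable ?_
    exact Eventually.of_forall fun x => by rw [Real.norm_eq_abs]; exact hF1 x
  have hFW : IntegrableOn (fun x => F x * W x) (Set.Ioc s t) := by
    obtain ⟨M, hM⟩ := (isCompact_Icc (a := s) (b := t)).exists_bound_of_continuousOn hWc.continuousOn
    refine Measure.integrableOn_of_bounded (M := M) (by simp)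
      (hF.mul hWc.measurable).aestronglyMeasurable ?_
    filter_upwards [ae_restrict_mem measurableSet_Ioc] with x hx
    rw [norm_mul]
    have h1 := hM x (Set.Ioc_subset_Icc_self hx)
    have h2 : ‖F x‖ ≤ 1 := by rw [Real.norm_eq_abs]; exact hF1 x
    have h3 := norm_nonneg (W x)
    nlinarith
  obtain ⟨M, hM⟩ := (isCompact_Icc (a := s) (b := t)).exists_bound_of_continuousOn hW'.continuousOn
  set f : ℝ → ℝ → ℝ := fun x v => F x * (W' v * (if x < v then 1 else 0)) with hf
  have hfi : Integrable (Function.uncurry f) ((volume.restrict (Set.Ioc s t)).prod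
      (volume.restrict (Set.Ioc s t))) := by
    refine Integrable.of_bound (C := M) ?_ ?_
    · refine Measurable.aestronglyMeasurable ?_
      refine (hF.comp measurable_fst).mul ((hW'.measurable.comp measurable_snd).mul ?_)
      exact Measurable.ite (measurableSet_lt measurable_fst measurable_snd) measurable_const
        measurable_const
    · rw [Measure.prod_restrict]
      filter_upwards [ae_restrict_mem (measurableSet_Ioc.prod measurableSet_Ioc)] with z hz
      change ‖F z.1 * (W' z.2 * (if z.1 < z.2 then 1 else 0))‖ ≤ M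
      rw [norm_mul, norm_mul]
      have h1 := hM z.2 (Set.Ioc_subset_Icc_self hz.2)
      have h2 : ‖F z.1‖ ≤ 1 := by rw [Real.norm_eq_abs]; exact hF1 _
      have h3 := norm_nonneg (W' z.2)
      have h4 : ‖(if z.1 < z.2 then (1 : ℝ) else 0)‖ ≤ 1 := by split_ifs <;> simp
      have h5 := norm_nonneg (if z.1 < z.2 then (1 : ℝ) else 0)
      calc ‖F z.1‖ * (‖W' z.2‖ * ‖(if z.1 < z.2 then (1 : ℝ) else 0)‖) ≤ 1 * (‖W' z.2‖ * 1) := by
            gcongr
        _ ≤ M := by linarith
  have hswap := integral_integral_swap hfi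
  have hl : ∀ x ∈ Set.Ioc s t, ∫ v in Set.Ioc s t, f x v = F x * (W t - W x) := by
    intro x hx
    have e1 : ∫ v in Set.Ioc s t, f x v = F x * ∫ v in Set.Ioc x t, W' v := by
      rw [← integral_const_mul]
      have e2 : ∀ v, f x v = (Set.Ioi x).indicator (fun v => F x * W' v) v := by
        intro v
        rw [hf, Set.indicator_apply]
        by_cases h : x < v
        · simp [h]
        · simp [h]
      simp_rw [e2]
      rw [setIntegral_indicator measurableSet_Ioi]
      congr 2
      ext v
      simp only [Set.mem_inter_iff, Set.mem_Ioc, Set.mem_Ioi]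
      constructor
      · rintro ⟨⟨_, h2⟩, h3⟩
        exact ⟨h3, h2⟩
      · rintro ⟨h2, h3⟩
        exact ⟨⟨hx.1.trans h2, h3⟩, h2⟩
    rw [e1, ← intervalIntegral.integral_of_le hx.2,
      intervalIntegral.integral_eq_sub_of_hasDerivAt (fun y _ => hW y)
        (hW'.intervalIntegrable _ _)]
  have hr : ∀ v ∈ Set.Ioc s t, ∫ x in Set.Ioc s t, f x v = W' v * ∫ x in Set.Ioc s v, F x := by
    intro v hv
    have e2 : ∀ x, f x v = (Set.Iio v).indicator (fun x => W' v * F x) x := by
      intro x
      rw [hf, Set.indicator_apply]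
      by_cases h : x < v
      · simp [h, mul_comm]
      · simp [h]
    simp_rw [e2]
    rw [setIntegral_indicator measurableSet_Iio]
    have e3 : Set.Ioc s t ∩ Set.Iio v = Set.Ioo s v := by
      ext x
      simp only [Set.mem_inter_iff, Set.mem_Ioc, Set.mem_Iio, Set.mem_Ioo]
      constructor
      · rintro ⟨⟨h1, _⟩, h3⟩
        exact ⟨h1, h3⟩
      · rintro ⟨h1, h3⟩
        exact ⟨⟨h1, h3.le.trans hv.2⟩, h3⟩
    rw [e3, ← integral_Ioc_eq_integral_Ioo, integral_const_mul]
  have h1 : ∫ x in Set.Ioc s t, (∫ v in Set.Ioc s t, f x v) =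
      ∫ x in Set.Ioc s t, F x * (W t - W x) := setIntegral_congr_fun measurableSet_Ioc hl
  have h2 : ∫ v in Set.Ioc s t, (∫ x in Set.Ioc s t, f x v) =
      ∫ v in Set.Ioc s t, W' v * ∫ x in Set.Ioc s v, F x := setIntegral_congr_fun measurableSet_Ioc hr
  rw [h1, h2] at hswap
  have h3 : ∫ x in Set.Ioc s t, F x * (W t - W x) =
      W t * (∫ x in Set.Ioc s t, F x) - ∫ x in Set.Ioc s t, F x * W x := by
    rw [← integral_const_mul, ← integral_sub ((hFi s t).const_mul _) hFW]
    refine integral_congr_ae (Eventually.of_forall fun x => ?_)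
    simp only []
    ring
  rw [h3] at hswap
  linarith

/-- **Weighted means.** If the means of `F n` over all intervals converge, then so do the means with a smooth weight. -/
theorem weighted {F : ℕ → ℝ → ℝ} {c : ℕ → ℝ} {s t : ℝ} (hst : s < t) (hFm : ∀ n, Measurable (F n))
    (hF0 : ∀ n x, 0 ≤ F n x) (hF1 : ∀ n x, F n x ≤ 1) (hc : ∀ n, 0 ≤ c n) {L g : ℝ → ℝ}
    (hL : ∀ x ∈ Set.Icc s t, HasDerivAt L (g x) x) (hg : ContinuousOn g (Set.Icc s t))
    (hlim : ∀ v, s < v → v ≤ t →
      Tendsto (fun n => (∫ x in Set.Ioc s v, F n x) * c n) atTop (𝓝 (L v - L s)))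
    {W W' : ℝ → ℝ} (hW : ∀ x, HasDerivAt W (W' x) x) (hW' : Continuous W') :
    Tendsto (fun n => (∫ x in Set.Ioc s t, F n x * W x) * c n) atTop (𝓝 (∫ x in s..t, g x * W x)) := by
  have habs : ∀ n x, |F n x| ≤ 1 := fun n x => by rw [abs_of_nonneg (hF0 n x)]; exact hF1 n x
  have hFi : ∀ n (a b : ℝ), IntegrableOn (F n) (Set.Ioc a b) := fun n a b => by
    refine Measure.integrableOn_of_bounded (M := 1) (by simp) (hFm n).aestronglyMeasurable ?_
    exact Eventually.of_forall fun x => by rw [Real.norm_eq_abs]; exact habs n x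
  obtain ⟨M, hM⟩ := (isCompact_Icc (a := s) (b := t)).exists_bound_of_continuousOn hW'.continuousOn
  have hM0 : 0 ≤ M := (norm_nonneg _).trans (hM s ⟨le_rfl, hst.le⟩)
  -- the primitive of `F n` is continuous
  have hcont : ∀ n, Continuous fun v => ∫ x in s..v, F n x := fun n =>
    intervalIntegral.continuous_primitive (fun a b => ⟨hFi n a b, hFi n b a⟩) s
  have hprim : ∀ n, ∀ v, s ≤ v → ∫ x in Set.Ioc s v, F n x = ∫ x in s..v, F n x := fun n v hv =>
    (intervalIntegral.integral_of_le hv).symm
  have hdct : Tendsto (fun n => ∫ v in Set.Ioc s t, W' v * ((∫ x in s..v, F n x) * c n)) atTop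
      (𝓝 (∫ v in Set.Ioc s t, W' v * (L v - L s))) := by
    refine tendsto_integral_filter_of_dominated_convergence (fun _ => M * (L t - L s + 1)) ?_ ?_ ?_ ?_
    · exact Eventually.of_forall fun n =>
        (hW'.mul ((hcont n).mul continuous_const)).aestronglyMeasurable
    · filter_upwards [(hlim t hst le_rfl).eventually_lt_const (lt_add_one _)] with n hn
      filter_upwards [ae_restrict_mem measurableSet_Ioc] with v hv
      rw [norm_mul]
      have h1 := hM v (Set.Ioc_subset_Icc_self hv)
      have h2 : ‖(∫ x in s..v, F n x) * c n‖ ≤ L t - L s + 1 := by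
        rw [← hprim n v hv.1.le, Real.norm_eq_abs, abs_of_nonneg (mul_nonneg
          (setIntegral_nonneg measurableSet_Ioc fun x _ => hF0 n x) (hc n))]
        refine le_trans (mul_le_mul_of_nonneg_right ?_ (hc n)) hn.le
        refine setIntegral_mono_set (hFi n s t) (Eventually.of_forall fun x => hF0 n x) ?_
        exact (Set.Ioc_subset_Ioc_right hv.2).eventuallyLE
      exact mul_le_mul h1 h2 (norm_nonneg _) hM0
    · exact integrable_const _
    · filter_upwards [ae_restrict_mem measurableSet_Ioc] with v hv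
      refine Tendsto.const_mul _ ?_
      refine (hlim v hv.1 hv.2).congr fun n => ?_
      rw [hprim n v hv.1.le]
  have hmain : Tendsto (fun n => W t * ((∫ x in Set.Ioc s t, F n x) * c n) -
      ∫ v in Set.Ioc s t, W' v * ((∫ x in s..v, F n x) * c n)) atTop
      (𝓝 (W t * (L t - L s) - ∫ v in Set.Ioc s t, W' v * (L v - L s))) :=
    ((hlim t hst le_rfl).const_mul _).sub hdct
  have hval : W t * (L t - L s) - ∫ v in Set.Ioc s t, W' v * (L v - L s) = ∫ x in s..t, g x * W x := by
    rw [← intervalIntegral.integral_of_le hst.le]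
    have hu : ∀ x ∈ Set.uIcc s t, HasDerivAt (fun x => L x - L s) (g x) x := by
      intro x hx
      rw [Set.uIcc_of_le hst.le] at hx
      exact (hL x hx).sub_const _
    have hgi : IntervalIntegrable g volume s t := by
      rw [← Set.uIcc_of_le hst.le] at hg
      exact hg.intervalIntegrable
    have h := intervalIntegral.integral_mul_deriv_eq_deriv_mul hu (fun x _ => hW x) hgi
      (hW'.intervalIntegrable s t)
    have e : ∫ v in s..t, W' v * (L v - L s) = ∫ v in s..t, (L v - L s) * W' v :=
      intervalIntegral.integral_congr fun v _ => mul_comm _ _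
    rw [e, h]
    ring
  rw [hval] at hmain
  refine hmain.congr fun n => ?_
  rw [parts_meas (hFm n) (habs n) hW hW', sub_mul, mul_assoc]
  congr 1
  rw [← integral_mul_const]
  refine setIntegral_congr_fun measurableSet_Ioc fun v hv => ?_
  change W' v * ((∫ x in s..v, F n x) * c n) = W' v * (∫ x in Set.Ioc s v, F n x) * c n
  rw [hprim n v hv.1.le]
  ring

end Pool.Agent.Q26.FN
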